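import Mathlib

/-!
# The threshold `g (k)` for `k`-th powers of primes grows faster than every exponential

Fix an integer `P` and take a prime `b` with `b ^ 2 ≤ P ^ k < 4 b ^ 2`; let `a` run over the
integers in `(b / 2, b)`.  Then `a b < P ^ k`, so only the powers `p ^ k` of the primes `p < P`
matter, and for each of them the number of the `a` with `p ^ k = a x + b y` is at most the number
of the possible `x`, since `a x ≡ p ^ k (mod b)` determines `a`.  There are at most `2 p ^ k / b`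
possible `x`, which is exponentially smaller than `b`.  So for large `k` some pair `(a, b)`
represents no `p ^ k ≤ a b - a - b`, and `g (k) ≥ a > P ^ (k / 2) / 4`.
-/

namespace Pool.Agent.Results.MP_0e842d_nt.SuperexponentialGrowth

open Finset

/-- The pair `(a, b)` is `k`-good: some prime `p` has `p ^ k ≤ a b - a - b` and
`p ^ k = a x + b y` with natural numbers `x`, `y`. -/
def Good (k a b : ℕ) : Prop :=
  ∃ p : ℕ, p.Prime ∧ ((p : ℤ) ^ k ≤ (a : ℤ) * b - a - b) ∧ ∃ x y : ℕ, p ^ k = a * x + b * y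

/-- `N` is a threshold for the exponent `k`: `N ≥ 1` and every coprime pair `N < a < b`, `1 < a`,
is `k`-good. The number `g (k)` of the problem is the least threshold for `k`. -/
def Threshold (k N : ℕ) : Prop :=
  0 < N ∧ ∀ a b : ℕ, 1 < a → N < a → a < b → Nat.Coprime a b → Good k a b

open scoped Classical in
/-- few `a` in `(b / 2, b)` represent `p ^ k` together with `b` -/
theorem card_bad {b p k : ℕ} (hb : b.Prime) (hp : p.Prime) (hpb : p < b)
    (h : 2 * p ^ k < b * b) :
    ((Ioo (b / 2) b).filter (fun a => ∃ x y, p ^ k = a * x + b * y)).card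
      ≤ 2 * p ^ k / b := by
  have hsub : (Ioo (b / 2) b).filter (fun a => ∃ x y, p ^ k = a * x + b * y) ⊆
      (Icc 1 (2 * p ^ k / b)).biUnion
        (fun x => (Ioo (b / 2) b).filter (fun a => ∃ y, p ^ k = a * x + b * y)) := by
    intro a ha
    simp only [mem_filter, mem_Ioo] at ha
    obtain ⟨⟨ha1, ha2⟩, x, y, hxy⟩ := ha
    simp only [mem_biUnion, mem_filter, mem_Ioo, mem_Icc]
    refine ⟨x, ⟨?_, ?_⟩, ⟨ha1, ha2⟩, y, hxy⟩
    · rcases Nat.eq_zero_or_pos x with hx | hx
      · exfalso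
        subst hx
        have h1 : b ∣ p ^ k := ⟨y, by rw [hxy]; ring⟩
        have h2 := (Nat.prime_dvd_prime_iff_eq hb hp).1 (hb.dvd_of_dvd_pow h1)
        omega
      · exact hx
    · rw [Nat.le_div_iff_mul_le hb.pos]
      have h2a : b ≤ 2 * a := by omega
      calc x * b ≤ x * (2 * a) := Nat.mul_le_mul_left _ h2a
        _ = 2 * (a * x) := by ring
        _ ≤ 2 * (a * x + b * y) := by omega
        _ = 2 * p ^ k := by rw [hxy]
  have hlt : 2 * p ^ k / b < b := Nat.div_lt_of_lt_mul h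
  refine (card_le_card hsub).trans ?_
  refine (card_biUnion_le_card_mul _ _ 1 ?_).trans ?_
  · intro x hx
    rw [mem_Icc] at hx
    rw [card_le_one]
    intro a ha a' ha'
    simp only [mem_filter, mem_Ioo] at ha ha'
    obtain ⟨⟨ha1, ha2⟩, y, hy⟩ := ha
    obtain ⟨⟨hb1, hb2⟩, y', hy'⟩ := ha'
    have h1 : (b : ℤ) ∣ ((a : ℤ) - a') * x := by
      have e1 : (a : ℤ) * x + b * y = a' * x + b * y' := by
        have := hy.symm.trans hy'
        exact_mod_cast this
      exact ⟨(y' : ℤ) - y, by linarith⟩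
    have hbz : Prime (b : ℤ) := Nat.prime_iff_prime_int.1 hb
    rcases hbz.dvd_or_dvd h1 with h2 | h2
    · have h3 : |(a : ℤ) - a'| < b := by
        rw [abs_lt]; constructor <;> omega
      have h4 := Int.eq_zero_of_abs_lt_dvd h2 h3
      omega
    · have h3 : b ∣ x := Int.natCast_dvd_natCast.1 h2
      have := Nat.le_of_dvd (by omega) h3
      omega
  · simp

/-- for large `k` there is a pair that is not `k`-good, with `16 a ^ 2 > P ^ k` -/
theorem exists_bad_pair {P k : ℕ} (hP : 2 ≤ P) (hk : 6 ≤ k)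
    (h : 32 * P * (P - 1) ^ k < P ^ k) :
    ∃ a b : ℕ, 1 < a ∧ a < b ∧ Nat.Coprime a b ∧ P ^ k < 16 * (a * a) ∧ ¬ Good k a b := by
  classical
  set X := Nat.sqrt (P ^ k) with hX
  have hX1 : X * X ≤ P ^ k := Nat.sqrt_le _
  have hX2 : P ^ k < (X + 1) * (X + 1) := Nat.lt_succ_sqrt _
  have hPk : 64 ≤ P ^ k := by
    calc 64 = 2 ^ 6 := by norm_num
      _ ≤ P ^ 6 := Nat.pow_le_pow_left hP 6
      _ ≤ P ^ k := Nat.pow_le_pow_right (by omega) hk
  have hX8 : 8 ≤ X := by
    rw [hX, Nat.le_sqrt]; omega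
  obtain ⟨b, hb, hb1, hb2⟩ := Nat.exists_prime_lt_and_le_two_mul (X / 2) (by omega)
  have hbX : b ≤ X := by omega
  have hXb : X + 1 ≤ 2 * b := by omega
  have hbb1 : b * b ≤ P ^ k := (Nat.mul_le_mul hbX hbX).trans hX1
  have hbb2 : P ^ k < 4 * (b * b) := by
    calc P ^ k < (X + 1) * (X + 1) := hX2
      _ ≤ (2 * b) * (2 * b) := Nat.mul_le_mul hXb hXb
      _ = 4 * (b * b) := by ring
  have hPb : P < b := by
    have h1 : P ^ 4 ≤ P ^ k := Nat.pow_le_pow_right (by omega) (by omega)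
    have h2 : 4 * (P * P) ≤ P ^ 4 := by
      calc 4 * (P * P) ≤ (P * P) * (P * P) := by gcongr; nlinarith
        _ = P ^ 4 := by ring
    by_contra hcon
    push Not at hcon
    have h3 : b * b ≤ P * P := Nat.mul_le_mul hcon hcon
    omega
  have hb5 : 5 ≤ b := by omega
  -- the bad set
  let A : ℕ → Finset ℕ := fun p =>
    (Ioo (b / 2) b).filter (fun a => ∃ x y, p ^ k = a * x + b * y)
  let Bad : Finset ℕ := ((range P).filter Nat.Prime).biUnion A
  have hpow : ∀ p, p < P → p ^ k ≤ (P - 1) ^ k := fun p hp =>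
    Nat.pow_le_pow_left (by omega) k
  have hQ : 32 * P * (P - 1) ^ k < 4 * (b * b) := h.trans hbb2
  have hA : ∀ p ∈ (range P).filter Nat.Prime, (A p).card ≤ 2 * (P - 1) ^ k / b := by
    intro p hp
    simp only [mem_filter, mem_range] at hp
    have h1 : 2 * p ^ k < b * b := by
      have h2 := hpow p hp.1
      have h3 : (P - 1) ^ k ≤ P * (P - 1) ^ k := Nat.le_mul_of_pos_left _ (by omega)
      have h4 : 32 * P * (P - 1) ^ k = 32 * (P * (P - 1) ^ k) := by ring
      omega
    refine (card_bad hb hp.2 (by omega) h1).trans ?_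
    exact Nat.div_le_div_right (by have := hpow p hp.1; omega)
  have hBad : Bad.card ≤ P * (2 * (P - 1) ^ k / b) := by
    refine (card_biUnion_le_card_mul _ _ _ hA).trans ?_
    refine Nat.mul_le_mul_right _ ?_
    calc ((range P).filter Nat.Prime).card ≤ (range P).card := card_filter_le _ _
      _ = P := card_range P
  have hsmall : 4 * (P * (2 * (P - 1) ^ k / b)) < b := by
    have h1 : 2 * (P - 1) ^ k / b * b ≤ 2 * (P - 1) ^ k := Nat.div_mul_le_self _ _
    have h2 : 4 * (P * (2 * (P - 1) ^ k / b)) * b < b * b := by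
      calc 4 * (P * (2 * (P - 1) ^ k / b)) * b = 4 * P * (2 * (P - 1) ^ k / b * b) := by ring
        _ ≤ 4 * P * (2 * (P - 1) ^ k) := Nat.mul_le_mul_left _ h1
        _ < b * b := by
            have h4 : 32 * P * (P - 1) ^ k = 4 * (4 * P * (2 * (P - 1) ^ k)) := by ring
            omega
    exact Nat.lt_of_mul_lt_mul_right h2
  have hcard : Bad.card < (Ioo (b / 2) b).card := by
    rw [Nat.card_Ioo]
    omega
  obtain ⟨a, ha, haBad⟩ := exists_mem_notMem_of_card_lt_card hcard
  rw [mem_Ioo] at ha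
  have hcop : Nat.Coprime a b :=
    (Nat.coprime_of_lt_prime (by omega) ha.2 hb).symm
  refine ⟨a, b, by omega, ha.2, hcop, ?_, ?_⟩
  · have h2a : b + 1 ≤ 2 * a := by omega
    calc P ^ k < 4 * (b * b) := hbb2
      _ ≤ 4 * ((2 * a) * (2 * a)) := by gcongr <;> omega
      _ = 16 * (a * a) := by ring
  · rintro ⟨p, hp, hle, x, y, hxy⟩
    have hpP : p < P := by
      have h1 : (p : ℤ) ^ k < (P : ℤ) ^ k := by
        have h2 : (a : ℤ) * b ≤ b * b := by
          have := Nat.mul_le_mul_right b ha.2.le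
          exact_mod_cast this
        have h3 : (b : ℤ) * b ≤ (P : ℤ) ^ k := by exact_mod_cast hbb1
        have h4 : (0 : ℤ) < a := by omega
        have h5 : (0 : ℤ) < b := by omega
        linarith
      have h2 : p ^ k < P ^ k := by exact_mod_cast h1
      exact lt_of_pow_lt_pow_left₀ k (Nat.zero_le _) h2
    apply haBad
    simp only [Bad, A, mem_biUnion, mem_filter, mem_range, mem_Ioo]
    exact ⟨p, ⟨hpP, hp⟩, ha, x, y, hxy⟩

/-- For every real `M` there is `k₀` such that for all `k ≥ k₀` every threshold for the exponent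
`k`, in particular the least one `g (k)`, is larger than `M ^ k`. -/
theorem result : ∀ M : ℝ, 0 < M → ∃ k₀ : ℕ, ∀ k : ℕ, k₀ ≤ k →
    ∀ N : ℕ, Threshold k N → M ^ k < (N : ℝ) := by
  intro M hM
  obtain ⟨P, hP⟩ := exists_nat_ge (max 2 (16 * M ^ 2))
  have hP2 : 2 ≤ P := by exact_mod_cast (le_max_left _ _).trans hP
  have hPM : 16 * M ^ 2 ≤ P := (le_max_right _ _).trans hP
  have hP0 : (0 : ℝ) < P := by positivity
  have hratio : ((P : ℝ) - 1) / P < 1 := by rw [div_lt_one hP0]; linarith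
  have hratio0 : 0 ≤ ((P : ℝ) - 1) / P := by
    apply div_nonneg _ hP0.le
    have : (2 : ℝ) ≤ P := by exact_mod_cast hP2
    linarith
  have htend := tendsto_pow_atTop_nhds_zero_of_lt_one hratio0 hratio
  have hev : ∀ᶠ k : ℕ in Filter.atTop, (((P : ℝ) - 1) / P) ^ k < 1 / (32 * P) :=
    htend.eventually_lt_const (by positivity)
  obtain ⟨k₁, hk₁⟩ := Filter.eventually_atTop.1 hev
  refine ⟨max k₁ 6, fun k hk N hN => ?_⟩
  have hk6 : 6 ≤ k := (le_max_right _ _).trans hk
  have h1 := hk₁ k ((le_max_left _ _).trans hk)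
  have hlt : 32 * P * (P - 1) ^ k < P ^ k := by
    have h2 : (32 : ℝ) * P * ((P : ℝ) - 1) ^ k < (P : ℝ) ^ k := by
      rw [div_pow, div_lt_div_iff₀ (by positivity) (by positivity)] at h1
      linarith
    have h3 : ((P - 1 : ℕ) : ℝ) = (P : ℝ) - 1 := by
      rw [Nat.cast_sub (by omega)]; simp
    rw [← h3] at h2
    exact_mod_cast h2
  obtain ⟨a, b, ha1, hab, hcop, haP, hbad⟩ := exists_bad_pair hP2 hk6 hlt
  by_contra hcon
  push Not at hcon
  apply hbad
  refine hN.2 a b ha1 ?_ hab hcop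
  have h4 : (M ^ k) ^ 2 < (a : ℝ) ^ 2 := by
    have h5 : (P : ℝ) ^ k < 16 * ((a : ℝ) * a) := by exact_mod_cast haP
    have h6 : (16 * M ^ 2) ^ k ≤ (P : ℝ) ^ k := pow_le_pow_left₀ (by positivity) hPM k
    have h7 : (16 : ℝ) ≤ 16 ^ k := by
      calc (16 : ℝ) = 16 ^ 1 := by norm_num
        _ ≤ 16 ^ k := pow_le_pow_right₀ (by norm_num) (by omega)
    have h8 : (16 * M ^ 2) ^ k = 16 ^ k * (M ^ k) ^ 2 := by
      rw [mul_pow, ← pow_mul, ← pow_mul, mul_comm 2 k]
    have h9 : 16 * (M ^ k) ^ 2 ≤ 16 ^ k * (M ^ k) ^ 2 := by gcongr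
    nlinarith
  have h5 : M ^ k < (a : ℝ) := lt_of_pow_lt_pow_left₀ 2 (Nat.cast_nonneg a) h4
  have h6 : (N : ℝ) < a := lt_of_le_of_lt hcon h5
  exact_mod_cast h6

end Pool.Agent.Results.MP_0e842d_nt.SuperexponentialGrowth
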